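import Pool.Agent.GWP.Measurability

/-!
With high probability a random oracle does not change the Gray-Wyner profile
(Q1 of MP_17b90d_lc).
-/

namespace Pool.Agent.Results.MP_17b90d_lc.RandomOracle

open Pool.Agent.GWP MeasureTheory

/-- Optimal decompressors and optimal oracle decompressors exist, and for every choice of them
(defining `KS` and `KS^A`) and of a computable injective pairing of strings: for every `ε > 0`
there is a constant `c` such that for all `n ≥ 2` and all pairs `(x, y)` with `KS(x, y) ≤ n`,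
`Pr_A [GW^A(x, y) ⊆ GW(x, y)_{+ c log n}] ≥ 1 - ε`. -/
theorem result :
    (∃ D : Str → Str →. Str, IsOptimal D) ∧
    (∃ E : (ℕ → Bool) → Str → Str →. Str, IsOracleOptimal E) ∧
    ∀ D : Str → Str →. Str, IsOptimal D →
    ∀ E : (ℕ → Bool) → Str → Str →. Str, IsOracleOptimal E →
    ∀ pair : Str → Str → Str, Computable₂ pair → Function.Injective2 pair →
    ∀ ε : ℝ, 0 < ε → ∃ c : ℝ, ∀ n : ℕ, 2 ≤ n → ∀ x y : Str, KS D (pair x y) [] ≤ n →
      MeasurableSet {A : ℕ → Bool | GW (KS (E A)) x y ⊆ shift (GW (KS D) x y) (c * Real.log n)} ∧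
      1 - ε ≤ (coin {A : ℕ → Bool |
        GW (KS (E A)) x y ⊆ shift (GW (KS D) x y) (c * Real.log n)}).toReal := by
  refine ⟨exists_optimal, exists_oracle_optimal, ?_⟩
  intro D hD E hE pair hp hinj ε hε
  obtain ⟨c, hc0, hc⟩ := quantitative hD hE hp hinj
  set ε' := min ε 1 with hε'
  have hε'0 : 0 < ε' := lt_min hε one_pos
  have hε'1 : ε' ≤ 1 := min_le_right _ _
  have hlog2 : 0 < Real.log 2 := Real.log_pos (by norm_num)
  have hloge : 0 ≤ Real.log (1 / ε') := by
    apply Real.log_nonneg
    rw [le_div_iff₀ hε'0]; linarith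
  refine ⟨c * (1 + Real.log (1 / ε') / Real.log 2), ?_⟩
  intro n hn x y hxy
  have hm := measurableSet_event hE (KS D) x y (c * (1 + Real.log (1 / ε') / Real.log 2) * Real.log n)
  refine ⟨hm, ?_⟩
  have hlogn : Real.log 2 ≤ Real.log n :=
    Real.log_le_log (by norm_num) (by exact_mod_cast hn)
  have hle : c * (Real.log n + Real.log (1 / ε')) ≤
      c * (1 + Real.log (1 / ε') / Real.log 2) * Real.log n := by
    rw [mul_assoc]
    apply mul_le_mul_of_nonneg_left _ hc0
    have h1 : Real.log (1 / ε') ≤ Real.log (1 / ε') / Real.log 2 * Real.log n := by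
      rw [div_mul_eq_mul_div, le_div_iff₀ hlog2]
      exact mul_le_mul_of_nonneg_left hlogn hloge
    linarith
  have h1 := hc ε' hε'0 hε'1 n hn x y hxy
  have h2 : coin {A : ℕ → Bool | GW (KS (E A)) x y ⊆ shift (GW (KS D) x y)
      (c * (1 + Real.log (1 / ε') / Real.log 2) * Real.log n)}ᶜ ≤ ENNReal.ofReal ε' := by
    refine le_trans (measure_mono ?_) h1
    intro A hA hcon
    exact hA (hcon.trans (GW_up hle))
  have h3 : coin.real {A : ℕ → Bool | GW (KS (E A)) x y ⊆ shift (GW (KS D) x y)
      (c * (1 + Real.log (1 / ε') / Real.log 2) * Real.log n)}ᶜ ≤ ε' := by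
    unfold Measure.real
    exact ENNReal.toReal_le_of_le_ofReal hε'0.le h2
  rw [probReal_compl_eq_one_sub hm] at h3
  have h4 : ε' ≤ ε := min_le_left _ _
  unfold Measure.real at h3
  linarith

end Pool.Agent.Results.MP_17b90d_lc.RandomOracle
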